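import Pool.Agent.W2helper91.GRS.Bounds

/-!
# MP_aa6dd4_lc, Q1: support-constrained Reed-Solomon codes over small fields

The existence over some infinite field (the GM-MDS theorem) is proved by induction in
`Pool.Agent.W2helper91.GRS.Induct`. The evaluation points are then replaced one at a time by
points of the given finite field; the determinant, as a polynomial in the point `x_j`, has at most
`slack Z j` roots (on the projective line) besides the other points, and a Möbius transformation
makes the point at infinity usable at every step (`Pool.Agent.W2helper91.GRS.Replace`).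
-/

namespace Pool.Agent.Results.MP_aa6dd4_lc.SmallFields

/-- Condition (∗): `|⋂_{i ∈ Ω} Z_i| + |Ω| ≤ k` for every nonempty `Ω ⊆ {1, …, k}`. -/
def Condition {n k : ℕ} (Z : Fin k → Finset (Fin n)) : Prop :=
  ∀ Ω : Finset (Fin k), Ω.Nonempty →
    (Finset.univ.filter fun j : Fin n => ∀ i ∈ Ω, j ∈ Z i).card + Ω.card ≤ k

/-- The generalized Reed-Solomon code `{(v_1 f(α_1), …, v_n f(α_n)) : deg f < k}`. -/
def grsCode {K : Type*} [Field K] {n : ℕ} (k : ℕ) (α v : Fin n → K) : Set (Fin n → K) :=
  {w | ∃ f : Polynomial K, f.degree < k ∧ ∀ j, w j = v j * f.eval (α j)}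

/-- `G` is a generator matrix of `C`: its rows form a basis of `C`. -/
def IsGeneratorMatrix {K : Type*} [Field K] {n k : ℕ} (G : Fin k → Fin n → K)
    (C : Set (Fin n → K)) : Prop :=
  LinearIndependent K G ∧ (Submodule.span K (Set.range G) : Set (Fin n → K)) = C

/-- `G` fulfils the support constraint: `G_{ij} = 0` for all `i` and all `j ∈ Z_i`. -/
def FulfilsSupport {K : Type*} [Field K] {n k : ℕ} (Z : Fin k → Finset (Fin n))
    (G : Fin k → Fin n → K) : Prop :=
  ∀ i, ∀ j ∈ Z i, G i j = 0

/-- Some `[n, k]` Reed-Solomon code over `K` (a GRS code with pairwise distinct evaluation points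
and all column multipliers `1`) has a generator matrix fulfilling the support constraint. -/
def RSExists (K : Type*) [Field K] {n k : ℕ} (Z : Fin k → Finset (Fin n)) : Prop :=
  ∃ α : Fin n → K, Function.Injective α ∧
    ∃ G : Fin k → Fin n → K, IsGeneratorMatrix G (grsCode k α fun _ => 1) ∧ FulfilsSupport Z G

/-- The slack of (∗) at `Ω_j = {i : j ∉ Z_i}`: `s_j = k - |Ω_j| - |⋂_{i ∈ Ω_j} Z_i|`
(under (∗) the subtractions do not truncate, because `Ω_j` is nonempty). -/
def slack {n k : ℕ} (Z : Fin k → Finset (Fin n)) (j : Fin n) : ℕ :=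
  k - (Finset.univ.filter fun i : Fin k => j ∉ Z i).card -
    (Finset.univ.filter fun l : Fin n => ∀ i : Fin k, j ∉ Z i → l ∈ Z i).card

/-- Let `1 ≤ k ≤ n`, let `Z_1, …, Z_k ⊆ {1, …, n}` satisfy (∗), and let `K` be a finite field with
`q ≥ n` elements. Some `[n, k]` Reed-Solomon code over `K` has a generator matrix fulfilling the
support constraint in each of the following cases:
* `q ≥ n - 1 + min (⌊k (k - 1) / n⌋, (n - k - 1)²)` (for `k = n` the minimum is read as `0`);
* `n ≤ k + 2` or `k (k - 1) < 2 n`; in particular `k ≤ 4` or `n ≤ 7`;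
* there are `Z'_i ⊇ Z_i` satisfying (∗) with `|Z'_i| = k - 1` for all `i`, such that for every `j` at
  most `q + 1 - s_j` indices `l` have `s_l ≥ s_j`, where `s_j` is the slack of (∗) for `Z'` at
  `{i : j ∉ Z'_i}`. -/
theorem result (n k : ℕ) (hk : 1 ≤ k) (hkn : k ≤ n) (Z : Fin k → Finset (Fin n))
    (hZ : Condition Z) (K : Type*) [Field K] [Fintype K] (hq : n ≤ Fintype.card K) :
    (n + min (k * (k - 1) / n) ((n - k - 1) ^ 2) ≤ Fintype.card K + 1 → RSExists K Z) ∧
    (n ≤ k + 2 ∨ k * (k - 1) < 2 * n ∨ k ≤ 4 ∨ n ≤ 7 → RSExists K Z) ∧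
    (∀ Z' : Fin k → Finset (Fin n), (∀ i, Z i ⊆ Z' i) → Condition Z' →
      (∀ i, (Z' i).card + 1 = k) →
      (∀ j, (Finset.univ.filter fun l => slack Z' j ≤ slack Z' l).card + slack Z' j ≤
        Fintype.card K + 1) → RSExists K Z) := by
  have hstar' : ∀ Z' : Fin k → Finset (Fin n), Condition Z' → Pool.Agent.R558.Star k Z' := by
    intro Z' hZ' Ω hΩ
    have h := hZ' Ω hΩ
    unfold Pool.Agent.R558.cap
    convert h
  have hstar := hstar' Z hZ
  have main : ∀ Z' : Fin k → Finset (Fin n), (∀ i, Z i ⊆ Z' i) → Pool.Agent.R558.Star k Z' →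
      (∀ i, (Z' i).card + 1 = k) →
      (∀ j, (Finset.univ.filter fun l => Pool.Agent.W2helper91.GRS.slack Z' j ≤
        Pool.Agent.W2helper91.GRS.slack Z' l).card + Pool.Agent.W2helper91.GRS.slack Z' j ≤
        Fintype.card K + 1) → RSExists K Z := by
    intro Z' h1 h2 h3 h4
    obtain ⟨y, hy, hind⟩ := Pool.Agent.W2helper91.GRS.exists_points (K := K) (by omega) h3 h2
      (by simpa using hq) h4
    obtain ⟨G, ⟨hG1, hG2⟩, hG3⟩ := Pool.Agent.W2helper91.GRS.rs_code hkn h3 hy hind
    refine ⟨y, hy, G, ⟨hG1, ?_⟩, fun i j hj => hG3 i j (h1 i hj)⟩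
    rw [hG2]
    unfold grsCode
    simp only [one_mul]
  have first : n + min (k * (k - 1) / n) ((n - k - 1) ^ 2) ≤ Fintype.card K + 1 →
      RSExists K Z := by
    intro h
    obtain ⟨Z', h1, h2, h3⟩ := Pool.Agent.R558.Star.extend (by simpa using hkn) _ Z hstar rfl
    refine main Z' h1 h2 h3 fun j => ?_
    refine le_trans (Pool.Agent.W2helper91.GRS.criterion_of_le (by omega) (by simpa using hkn)
      h3 h2 j) ?_
    rw [Fintype.card_fin]
    exact h
  refine ⟨first, fun h => first ?_, fun Z' h1 h2 h3 h4 => main Z' h1 (hstar' Z' h2) h3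
    fun j => ?_⟩
  · have h0 : n ≤ k + 2 ∨ k * (k - 1) < 2 * n := by
      rcases h with h | h | h | h
      · exact Or.inl h
      · exact Or.inr h
      · by_cases h1 : n ≤ k + 2
        · exact Or.inl h1
        · right
          interval_cases k <;> omega
      · by_cases h1 : n ≤ k + 2
        · exact Or.inl h1
        · right
          have h2 : k ≤ 4 := by omega
          interval_cases k <;> omega
    have h1 : min (k * (k - 1) / n) ((n - k - 1) ^ 2) ≤ 1 := by
      rcases h0 with h | h
      · refine le_trans (min_le_right _ _) ?_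
        have h2 : n - k - 1 ≤ 1 := by omega
        calc (n - k - 1) ^ 2 ≤ 1 ^ 2 := Nat.pow_le_pow_left h2 2
          _ = 1 := by norm_num
      · refine le_trans (min_le_left _ _) ?_
        have h2 : k * (k - 1) / n < 2 := by
          rw [Nat.div_lt_iff_lt_mul (by omega)]
          exact h
        omega
    omega
  · have hsl : ∀ l, Pool.Agent.W2helper91.GRS.slack Z' l = slack Z' l := by
      intro l
      unfold Pool.Agent.W2helper91.GRS.slack slack Pool.Agent.R558.cap
      congr 2
      ext a
      simp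
    simp only [hsl]
    exact h4 j

end Pool.Agent.Results.MP_aa6dd4_lc.SmallFields
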